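import Pool.Agent.K1H53.KD.Plan2
import Pool.Agent.K1H53.KZ.SE

/-!
The lower half in every dimension: tails of the free polymer from tails of the point-to-point
polymers and confinement.
-/

open MeasureTheory ProbabilityTheory Set Filter TH967.DP
open scoped Topology
open Classical

set_option linter.unusedSectionVars false

namespace Pool.Agent.K1H52.KD

open Pool.Agent.K1H38.DP Pool.Agent.K1H53.KD Pool.Agent.K1H53.KZ

variable {d : ℕ}

/-- the point-to-point free energies in the window are regular -/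
def PG (β : ℝ) (h v : Fin d → ℝ) (N : ℕ) (R lam f : ℝ) (η : ℕ → (Fin d → ℤ) → ℝ) : Prop :=
  ∀ z : Fin d → ℤ, reach N z → K1H53.KD.sq (disp v N z) ≤ R ^ 2 →
    |Real.log (Zp β η N z) - (f - dot h z)| ≤ lam

lemma shift_shift0 (m : ℕ) (y D : Fin d → ℤ) (η : ℕ → (Fin d → ℤ) → ℝ) :
    shift m y (shift 0 D η) = shift m (D + y) η := by
  funext i x
  simp only [shift, zero_add]
  rw [add_assoc]

lemma in_tube {n : ℕ} {v : Fin d → ℝ} {R : ℝ} (hR : 0 ≤ R) {w : Fin n → Step d}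
    (hw : w ∈ tube n v R) {i : ℕ} (hi : i ≤ n) : K1H53.KD.sq (disp v i (pos w i)) ≤ R ^ 2 := by
  have h1 := hw i hi
  rw [Real.sqrt_le_left hR] at h1
  exact h1

/-- the walks in the tube, by their position at time `m` -/
lemma Zt_le_sum (β : ℝ) (h v : Fin d → ℝ) (η : ℕ → (Fin d → ℤ) → ℝ) (m n : ℕ)
    {R : ℝ} (hR : 0 ≤ R) :
    Zt β h η (m + n) v R ≤ ∑ y ∈ (Finset.Icc (fun _ : Fin d => -(m : ℤ))
      (fun _ => (m : ℤ))).filter (fun y => K1H53.KD.sq (disp v m y) ≤ R ^ 2),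
        Zp β η m y * Real.exp (dot h y) * Zd β h (shift m y η) n := by
  set F := (Finset.Icc (fun _ : Fin d => -(m : ℤ))
      (fun _ => (m : ℤ))).filter (fun y => K1H53.KD.sq (disp v m y) ≤ R ^ 2) with hF
  have e1 : ∑ y ∈ F, Zp β η m y * Real.exp (dot h y) * Zd β h (shift m y η) n =
      ∑ u : Fin m → Step d, if pos u m ∈ F then
        wgt β h η u * Zd β h (shift m (pos u m) η) n else 0 := by
    have e2 : ∀ y, Zp β η m y * Real.exp (dot h y) * Zd β h (shift m y η) n =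
        ∑ u : Fin m → Step d, if pos u m = y then
          wgt β h η u * Zd β h (shift m (pos u m) η) n else 0 := by
      intro y
      unfold Zp
      rw [Finset.sum_mul, Finset.sum_mul]
      apply Finset.sum_congr rfl
      intro u _
      split_ifs with hu
      · subst hu
        unfold wgt
        rw [Real.exp_add]
        ring
      · ring
    simp_rw [e2]
    rw [Finset.sum_comm]
    apply Finset.sum_congr rfl
    intro u _
    rw [Finset.sum_ite_eq]
  rw [e1]
  unfold Zt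
  rw [sum_append]
  apply Finset.sum_le_sum
  intro u _
  split_ifs with hu
  · unfold Zd
    rw [Finset.mul_sum]
    apply Finset.sum_le_sum
    intro w _
    rw [← wgt_append]
    exact Set.indicator_le_self' (fun _ _ => (wgt_pos _ _ _ _).le) _
  · apply le_of_eq
    apply Finset.sum_eq_zero
    intro w _
    apply Set.indicator_of_notMem
    intro hw
    apply hu
    have h1 := in_tube hR hw (Nat.le_add_right m n)
    rw [pos_append_left u w le_rfl] at h1
    rw [hF, Finset.mem_filter]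
    exact ⟨mem_box.2 (fun k => abs_pos_le u m k), h1⟩

lemma Zd_nonneg (β : ℝ) (h : Fin d → ℝ) (η : ℕ → (Fin d → ℤ) → ℝ) (n : ℕ) : 0 ≤ Zd β h η n :=
  Finset.sum_nonneg fun _ _ => (wgt_pos _ _ _ _).le

lemma reach_box {s : ℕ} {y : Fin d → ℤ} (hy : reach s y) :
    y ∈ Finset.Icc (fun _ : Fin d => -(s : ℤ)) (fun _ => (s : ℤ)) := by
  rw [mem_box]
  intro k
  exact (Finset.single_le_sum (f := fun k => |y k|) (fun _ _ => abs_nonneg _)
    (Finset.mem_univ k)).trans hy.1

/-- comparison of the polymer in the tube with the polymer from a shifted starting point -/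
lemma comp_low (hZ : ZApi d) {β : ℝ} {h v : Fin d → ℝ} {η : ℕ → (Fin d → ℤ) → ℝ}
    {D : Fin d → ℤ} {s k : ℕ} {R R' lam f : ℝ} (hR : 0 ≤ R)
    (g1 : PG β h v s R' lam f η) (g2 : PG β h v s R' lam f (shift 0 D η))
    (hwin : ∀ z : Fin d → ℤ, reach s z → K1H53.KD.sq (disp v s z) ≤ R ^ 2 →
      K1H53.KD.sq (disp v s z) ≤ R' ^ 2 ∧ reach s (z - D) ∧ K1H53.KD.sq (disp v s (z - D)) ≤ R' ^ 2) :
    Zt β h η (s + k) v R ≤ Real.exp (2 * lam) * Zd β h (shift 0 D η) (s + k) := by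
  refine (Zt_le_sum β h v η s k hR).trans ?_
  set F := (Finset.Icc (fun _ : Fin d => -(s : ℤ))
      (fun _ => (s : ℤ))).filter (fun y => K1H53.KD.sq (disp v s y) ≤ R ^ 2) with hF
  set F' := F.filter (fun y => 0 < Zp β η s y) with hF'
  have e1 : ∑ y ∈ F, Zp β η s y * Real.exp (dot h y) * Zd β h (shift s y η) k =
      ∑ y ∈ F', Zp β η s y * Real.exp (dot h y) * Zd β h (shift s y η) k := by
    rw [hF']
    symm
    apply Finset.sum_filter_of_ne
    intro y _ hy
    by_contra hcon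
    apply hy
    have : Zp β η s y = 0 := le_antisymm (not_lt.1 hcon) (hZ.nonneg _ _ _ _)
    rw [this]
    ring
  rw [e1]
  set G : (Fin d → ℤ) → ℝ := fun y => Zp β (shift 0 D η) s y * Real.exp (dot h y) *
    Zd β h (shift s y (shift 0 D η)) k with hG
  have hG0 : ∀ y, 0 ≤ G y := fun y => mul_nonneg (mul_nonneg (hZ.nonneg _ _ _ _)
    (Real.exp_pos _).le) (Zd_nonneg _ _ _ _)
  have e2 : ∀ y ∈ F', Zp β η s y * Real.exp (dot h y) * Zd β h (shift s y η) k ≤
      Real.exp (2 * lam) * G (y - D) ∧ reach s (y - D) := by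
    intro y hy
    rw [hF', Finset.mem_filter, hF, Finset.mem_filter] at hy
    obtain ⟨⟨-, hy2⟩, hy3⟩ := hy
    have hre := hZ.reach _ _ _ _ hy3
    obtain ⟨w1, w2, w3⟩ := hwin y hre hy2
    refine ⟨?_, w2⟩
    have a1 := abs_le.1 (g1 y hre w1)
    have a2 := abs_le.1 (g2 (y - D) w2 w3)
    have hp2 := hZ.pos β (shift 0 D η) s (y - D) w2
    have b1 : Zp β η s y * Real.exp (dot h y) ≤ Real.exp (f + lam) := by
      rw [← Real.exp_log hy3, ← Real.exp_add]
      apply Real.exp_le_exp.2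
      linarith [a1.2]
    have b2 : Real.exp (f - lam) ≤ Zp β (shift 0 D η) s (y - D) * Real.exp (dot h (y - D)) := by
      rw [← Real.exp_log hp2, ← Real.exp_add]
      apply Real.exp_le_exp.2
      linarith [a2.1]
    have e3 : shift s (y - D) (shift 0 D η) = shift s y η := by
      rw [shift_shift0, add_sub_cancel]
    simp only [hG]
    rw [e3, ← mul_assoc]
    apply mul_le_mul_of_nonneg_right _ (Zd_nonneg _ _ _ _)
    calc Zp β η s y * Real.exp (dot h y) ≤ Real.exp (f + lam) := b1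
      _ = Real.exp (2 * lam) * Real.exp (f - lam) := by rw [← Real.exp_add]; congr 1; ring
      _ ≤ _ := mul_le_mul_of_nonneg_left b2 (Real.exp_pos _).le
  calc ∑ y ∈ F', Zp β η s y * Real.exp (dot h y) * Zd β h (shift s y η) k
      ≤ ∑ y ∈ F', Real.exp (2 * lam) * G (y - D) := Finset.sum_le_sum fun y hy => (e2 y hy).1
    _ = Real.exp (2 * lam) * ∑ y ∈ F'.image (fun y => y - D), G y := by
        rw [Finset.sum_image (fun a _ b _ hab => sub_left_injective hab), Finset.mul_sum]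
    _ ≤ Real.exp (2 * lam) * ∑ y ∈ Finset.Icc (fun _ : Fin d => -(s : ℤ)) (fun _ => (s : ℤ)),
          G y := by
        apply mul_le_mul_of_nonneg_left _ (Real.exp_pos _).le
        apply Finset.sum_le_sum_of_subset_of_nonneg
        · intro z hz
          rw [Finset.mem_image] at hz
          obtain ⟨y, hy, rfl⟩ := hz
          exact reach_box (e2 y hy).2
        · intro z _ _
          exact hG0 z
    _ = _ := by rw [hZ.split]

/-- the free energies in the tube for two starting points are close -/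
lemma close_low [NeZero d] (hZ : ZApi d) {β : ℝ} {h v : Fin d → ℝ} {η : ℕ → (Fin d → ℤ) → ℝ}
    {D : Fin d → ℤ} {s k : ℕ} {R R' lam f : ℝ} (hR : 0 ≤ R)
    (g1 : PG β h v s R' lam f η) (g2 : PG β h v s R' lam f (shift 0 D η))
    (hwin : ∀ z : Fin d → ℤ, reach s z → K1H53.KD.sq (disp v s z) ≤ R ^ 2 →
      K1H53.KD.sq (disp v s z) ≤ R' ^ 2 ∧ (reach s (z - D) ∧ K1H53.KD.sq (disp v s (z - D)) ≤ R' ^ 2) ∧
        (reach s (z + D) ∧ K1H53.KD.sq (disp v s (z + D)) ≤ R' ^ 2))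
    (u1 : 1 / 2 ≤ frProb β h η (tube (s + k) v R))
    (u2 : 1 / 2 ≤ frProb β h (shift 0 D η) (tube (s + k) v R)) :
    |Real.log (Zt β h η (s + k) v R) - Real.log (Zt β h (shift 0 D η) (s + k) v R)| ≤
      2 * lam + 1 := by
  have hl2 : Real.log 2 ≤ 1 := by
    have := Real.log_two_lt_d9
    linarith
  have e0 : shift 0 (-D) (shift 0 D η) = η := by
    rw [shift_shift0, add_neg_cancel, shift_zero]
  have c1 := comp_low (k := k) hZ hR g1 g2 (fun z z1 z2 =>
    ⟨(hwin z z1 z2).1, (hwin z z1 z2).2.1.1, (hwin z z1 z2).2.1.2⟩)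
  have c2 := comp_low (D := -D) (k := k) hZ hR g2 (by rw [e0]; exact g1) (fun z z1 z2 => by
    rw [sub_neg_eq_add]
    exact ⟨(hwin z z1 z2).1, (hwin z z1 z2).2.2.1, (hwin z z1 z2).2.2.2⟩)
  rw [e0] at c2
  have p1 := Zd_pos β h η (s + k)
  have p2 := Zd_pos β h (shift 0 D η) (s + k)
  rw [frProb_tube, le_div_iff₀ p1] at u1
  rw [frProb_tube, le_div_iff₀ p2] at u2
  have q1 : 0 < Zt β h η (s + k) v R := by linarith
  have q2 : 0 < Zt β h (shift 0 D η) (s + k) v R := by linarith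
  have key : ∀ {A B C : ℝ}, 0 < A → 0 < C → A ≤ Real.exp (2 * lam) * B → 1 / 2 * B ≤ C →
      Real.log A - Real.log C ≤ 2 * lam + 1 := by
    intro A B C hA hC hAB hBC
    have h1 : A ≤ Real.exp (2 * lam) * (2 * C) := by
      refine hAB.trans (mul_le_mul_of_nonneg_left (by linarith) (Real.exp_pos _).le)
    have h2 := Real.log_le_log hA h1
    rw [Real.log_mul (Real.exp_pos _).ne' (by positivity), Real.log_exp,
      Real.log_mul (by norm_num) hC.ne'] at h2
    linarith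
  have k1 := key q1 q2 c1 u2
  have k2 := key q2 q1 c2 u1
  rw [abs_le]
  constructor <;> linarith

/-- the sites of the tube -/
def TSet (v : Fin d → ℝ) (R : ℝ) : Set (ℕ × (Fin d → ℤ)) := {p | K1H53.KD.sq (disp v p.1 p.2) ≤ R ^ 2}

lemma Zt_dep {β : ℝ} {h v : Fin d → ℝ} {R : ℝ} (hR : 0 ≤ R) {n : ℕ}
    {η η' : ℕ → (Fin d → ℤ) → ℝ} (hh : ∀ p ∈ TSet v R, η p.1 p.2 = η' p.1 p.2) :
    Zt β h η n v R = Zt β h η' n v R := by
  unfold Zt
  apply Finset.sum_congr rfl
  intro w _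
  by_cases hw : w ∈ tube n v R
  · rw [Set.indicator_of_mem hw, Set.indicator_of_mem hw]
    unfold wgt energy
    congr 3
    apply Finset.sum_congr rfl
    intro i _
    exact hh (i.val + 1, pos w (i.val + 1)) (in_tube hR hw (by have := i.isLt; omega))
  · rw [Set.indicator_of_notMem hw, Set.indicator_of_notMem hw]

lemma measurable_Zt (β : ℝ) (h v : Fin d → ℝ) (n : ℕ) (R : ℝ) :
    Measurable (fun η : ℕ → (Fin d → ℤ) → ℝ => Zt β h η n v R) := by
  unfold Zt
  apply Finset.measurable_sum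
  intro w _
  by_cases hw : w ∈ tube n v R
  · simp only [Set.indicator_of_mem hw]
    unfold wgt energy
    apply Real.measurable_exp.comp
    apply Measurable.const_add
    apply Measurable.const_mul
    apply Finset.measurable_sum
    intro i _
    exact (measurable_pi_apply _).comp (measurable_pi_apply _)
  · simp only [Set.indicator_of_notMem hw]
    exact measurable_const

lemma measurable_fr (β : ℝ) (h v : Fin d → ℝ) (n : ℕ) (R : ℝ) :
    Measurable (fun η : ℕ → (Fin d → ℤ) → ℝ => frProb β h η (tube n v R)) :=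
  (measurable_Zt β h v n R).div (measurable_Zd β h n)

lemma measurable_PG (hZ : ZApi d) (β : ℝ) (h v : Fin d → ℝ) (N : ℕ) (R lam f : ℝ) :
    MeasurableSet {η : ℕ → (Fin d → ℤ) → ℝ | PG β h v N R lam f η} := by
  unfold PG
  have : {η : ℕ → (Fin d → ℤ) → ℝ | ∀ z : Fin d → ℤ, reach N z → K1H53.KD.sq (disp v N z) ≤ R ^ 2 →
      |Real.log (Zp β η N z) - (f - dot h z)| ≤ lam} = ⋂ z : Fin d → ℤ,
      {η : ℕ → (Fin d → ℤ) → ℝ | reach N z → K1H53.KD.sq (disp v N z) ≤ R ^ 2 →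
      |Real.log (Zp β η N z) - (f - dot h z)| ≤ lam} := by
    ext η
    simp only [Set.mem_ofPred_eq, Set.mem_iInter]
  rw [this]
  apply MeasurableSet.iInter
  intro z
  by_cases h1 : reach N z
  · by_cases h2 : K1H53.KD.sq (disp v N z) ≤ R ^ 2
    · simp only [h1, h2, true_imp_iff]
      exact measurableSet_le (((Real.measurable_log.comp (hZ.meas β N z)).sub_const _).abs)
        measurable_const
    · simp only [h2, false_imp_iff, imp_true_iff]
      exact MeasurableSet.univ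
  · simp only [h1, false_imp_iff]
    exact MeasurableSet.univ

variable {Ω : Type*} [MeasurableSpace Ω] {P : Measure Ω} [IsProbabilityMeasure P]
  {ω : ℕ → (Fin d → ℤ) → Ω → ℝ}

/-- invariance of probabilities under shifts -/
lemma prob_sh (he : IsEnv P ω) (D : Fin d → ℤ) {S : Set (ℕ → (Fin d → ℤ) → ℝ)}
    (hS : MeasurableSet S) : P.real {a | shift 0 D (fld ω a) ∈ S} = P.real {a | fld ω a ∈ S} := by
  have h1 : P.real {a | shift 0 D (fld ω a) ∈ S} =
      (P.map (fun a => shift 0 D (fld ω a))).real S := by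
    rw [map_measureReal_apply (f := fun a => shift 0 D (fld ω a))
      ((measurable_shift 0 D).comp (measurable_fld he)) hS]
    rfl
  have h2 : P.real {a | fld ω a ∈ S} = (P.map (fld ω)).real S := by
    rw [map_measureReal_apply (measurable_fld he) hS]
    rfl
  rw [h1, h2, map_shift he]

/-- Markov's inequality for confinement -/
lemma conf_prob [NeZero d] (he : IsEnv P ω) {β : ℝ} {h v : Fin d → ℝ} {n : ℕ} {R B : ℝ}
    (H : ∫ x, (1 - frProb β h (fun i y => ω i y x) (tube n v R)) ∂P ≤ B) :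
    P.real {x | frProb β h (fld ω x) (tube n v R) < 1 / 2} ≤ 2 * B := by
  set X : Ω → ℝ := fun x => 1 - frProb β h (fld ω x) (tube n v R) with hX
  have mX : Measurable X := ((measurable_fr β h v n R).comp (measurable_fld he)).const_sub 1
  have h0 : ∀ x, 0 ≤ X x := fun x => by
    simp only [hX]
    rw [frProb_tube, sub_nonneg, div_le_one (Zd_pos β h _ n)]
    exact Zt_le β h _ n v R
  have h1 : ∀ x, X x ≤ 1 := fun x => by
    have : 0 ≤ frProb β h (fld ω x) (tube n v R) := by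
      rw [frProb_tube]
      apply div_nonneg _ (Zd_pos β h _ n).le
      exact Finset.sum_nonneg fun w _ => Set.indicator_nonneg (fun w _ => (wgt_pos _ _ _ w).le) w
    simp only [hX]
    linarith
  have hi : Integrable X P := by
    refine Integrable.of_bound (C := 1) mX.aestronglyMeasurable (Eventually.of_forall fun x => ?_)
    rw [Real.norm_of_nonneg (h0 x)]
    exact h1 x
  have hM := mul_meas_ge_le_integral_of_nonneg (μ := P) (f := X)
    (Eventually.of_forall h0) hi (1 / 2)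
  have h2 : P.real {x | frProb β h (fld ω x) (tube n v R) < 1 / 2} ≤ P.real {x | 1 / 2 ≤ X x} := by
    apply measureReal_mono _ (measure_ne_top _ _)
    intro x hx
    simp only [Set.mem_ofPred_eq, hX] at hx ⊢
    linarith
  have h3 : ∫ x, X x ∂P ≤ B := H
  linarith

/-- the bound at a fixed scale -/
lemma low_step [NeZero d] (he : IsEnv P ω) (hZ : ZApi d) (h2 : S_two P ω) {β : ℝ}
    {h v : Fin d → ℝ} {D : Fin d → ℤ} {s k : ℕ} {R R' lam f B1 B2 : ℝ} (hR : 0 ≤ R)
    (hwin : ∀ z : Fin d → ℤ, reach s z → K1H53.KD.sq (disp v s z) ≤ R ^ 2 →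
      K1H53.KD.sq (disp v s z) ≤ R' ^ 2 ∧ (reach s (z - D) ∧ K1H53.KD.sq (disp v s (z - D)) ≤ R' ^ 2) ∧
        (reach s (z + D) ∧ K1H53.KD.sq (disp v s (z + D)) ≤ R' ^ 2))
    (hD : ∀ (i : ℕ) (y : Fin d → ℤ), K1H53.KD.sq (disp v i y) ≤ R ^ 2 → ¬ K1H53.KD.sq (disp v i (D + y)) ≤ R ^ 2)
    (H1 : P.real (PPbad P ω β h v s R' lam f) ≤ B1)
    (H2 : ∫ x, (1 - frProb β h (fun i y => ω i y x) (tube (s + k) v R)) ∂P ≤ B2) :
    ∃ m, P.real {x | 2 * lam + 2 < |Real.log (Zd β h (fld ω x) (s + k)) - m|} ≤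
      2 * B1 + 6 * B2 := by
  set X : (ℕ → (Fin d → ℤ) → ℝ) → ℝ := fun η => Real.log (Zt β h η (s + k) v R) with hX
  set X' : (ℕ → (Fin d → ℤ) → ℝ) → ℝ := fun η => Real.log (Zt β h (shift 0 D η) (s + k) v R)
    with hX'
  have mX : Measurable X := Real.measurable_log.comp (measurable_Zt β h v (s + k) R)
  have mX' : Measurable X' := mX.comp (measurable_shift 0 D)
  set SP : Set (ℕ → (Fin d → ℤ) → ℝ) := {η | PG β h v s R' lam f η}ᶜ with hSP
  have mSP : MeasurableSet SP := (measurable_PG hZ β h v s R' lam f).compl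
  set SF : Set (ℕ → (Fin d → ℤ) → ℝ) := {η | frProb β h η (tube (s + k) v R) < 1 / 2} with hSF
  have mSF : MeasurableSet SF := measurableSet_lt (measurable_fr β h v (s + k) R) measurable_const
  have b1 : P.real {a | fld ω a ∈ SP} ≤ B1 := by
    refine le_trans (measureReal_mono ?_ (measure_ne_top _ _)) H1
    intro a ha
    simp only [hSP, Set.mem_ofPred_eq, Set.mem_compl_iff, PG] at ha
    push Not at ha
    obtain ⟨z, z1, z2, z3⟩ := ha
    exact ⟨z, z1, z2, z3⟩
  have b1' : P.real {a | shift 0 D (fld ω a) ∈ SP} ≤ B1 := by rwa [prob_sh he D mSP]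
  have b2 : P.real {a | fld ω a ∈ SF} ≤ 2 * B2 := conf_prob he H2
  have b2' : P.real {a | shift 0 D (fld ω a) ∈ SF} ≤ 2 * B2 := by rwa [prob_sh he D mSF]
  have hsub : {a | 2 * lam + 1 < |X (fld ω a) - X' (fld ω a)|} ⊆
      ({a | fld ω a ∈ SP} ∪ {a | shift 0 D (fld ω a) ∈ SP}) ∪
        ({a | fld ω a ∈ SF} ∪ {a | shift 0 D (fld ω a) ∈ SF}) := by
    intro a ha
    by_contra hcon
    simp only [Set.mem_union, Set.mem_ofPred_eq, not_or, hSP, hSF, Set.mem_compl_iff,
      not_not, not_lt] at hcon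
    obtain ⟨⟨n1, n2⟩, n3, n4⟩ := hcon
    have ha' : 2 * lam + 1 < |X (fld ω a) - X' (fld ω a)| := ha
    exact absurd (close_low hZ hR n1 n2 hwin n3 n4) (not_le.2 ha')
  have hdiff : P.real {a | 2 * lam + 1 < |X (fld ω a) - X' (fld ω a)|} ≤ 2 * B1 + 4 * B2 := by
    have u0 := measureReal_mono (μ := P) hsub (measure_ne_top _ _)
    have u1 := measureReal_union_le (μ := P) ({a | fld ω a ∈ SP} ∪
      {a | shift 0 D (fld ω a) ∈ SP}) ({a | fld ω a ∈ SF} ∪ {a | shift 0 D (fld ω a) ∈ SF})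
    have u2 := measureReal_union_le (μ := P) {a | fld ω a ∈ SP} {a | shift 0 D (fld ω a) ∈ SP}
    have u3 := measureReal_union_le (μ := P) {a | fld ω a ∈ SF} {a | shift 0 D (fld ω a) ∈ SF}
    linarith
  obtain ⟨m, hm⟩ := h2 (TSet v R) X X' mX mX' (fun η η' hh => by
      simp only [hX]
      rw [Zt_dep hR hh]) (fun η η' hh => by
      simp only [hX']
      rw [Zt_dep (h := h) (v := v) (R := R) hR (η := shift 0 D η) (η' := shift 0 D η')]
      intro p hp
      simp only [shift, zero_add]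
      exact hh (p.1, D + p.2) (hD p.1 p.2 hp)) (2 * lam + 1) _ hdiff
  refine ⟨m, ?_⟩
  have hsub2 : {x | 2 * lam + 2 < |Real.log (Zd β h (fld ω x) (s + k)) - m|} ⊆
      {x | 2 * lam + 1 < |X (fld ω x) - m|} ∪ {a | fld ω a ∈ SF} := by
    intro a ha
    by_contra hcon
    simp only [Set.mem_union, Set.mem_ofPred_eq, not_or, hSF, not_lt] at hcon
    obtain ⟨n1, n2⟩ := hcon
    have ha' : 2 * lam + 2 < |Real.log (Zd β h (fld ω a) (s + k)) - m| := ha
    have p1 := Zd_pos β h (fld ω a) (s + k)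
    rw [frProb_tube, le_div_iff₀ p1] at n2
    have q1 : 0 < Zt β h (fld ω a) (s + k) v R := by linarith
    have e1 := Real.log_le_log q1 (Zt_le β h (fld ω a) (s + k) v R)
    have e2 : Real.log (Zd β h (fld ω a) (s + k)) ≤
        Real.log (Zt β h (fld ω a) (s + k) v R) + 1 := by
      have h3 : Zd β h (fld ω a) (s + k) ≤ 2 * Zt β h (fld ω a) (s + k) v R := by linarith
      have h4 := Real.log_le_log p1 h3
      rw [Real.log_mul (by norm_num) q1.ne'] at h4
      have := Real.log_two_lt_d9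
      linarith
    have t1 := abs_le.1 n1
    simp only [hX] at t1
    rw [lt_abs] at ha'
    rcases ha' with h5 | h5 <;> linarith [t1.1, t1.2]
  have u0 := measureReal_mono (μ := P) hsub2 (measure_ne_top _ _)
  have u1 := measureReal_union_le (μ := P) {x | 2 * lam + 1 < |X (fld ω x) - m|}
    {a | fld ω a ∈ SF}
  linarith

lemma sq_add_single [NeZero d] (a : Fin d → ℝ) (t : ℝ) :
    K1H53.KD.sq (fun k => a k + (Pi.single (0 : Fin d) t : Fin d → ℝ) k) =
      K1H53.KD.sq a + 2 * t * a 0 + t ^ 2 := by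
  unfold K1H53.KD.sq
  have e : ∀ k : Fin d, (a k + (Pi.single (0 : Fin d) t : Fin d → ℝ) k) ^ 2 =
      a k ^ 2 + if k = 0 then 2 * t * a 0 + t ^ 2 else 0 := by
    intro k
    by_cases hk : k = 0
    · subst hk
      rw [Pi.single_eq_same, if_pos rfl]
      ring
    · rw [Pi.single_eq_of_ne hk, if_neg hk]
      ring
  simp_rw [e]
  rw [Finset.sum_add_distrib, Finset.sum_ite_eq' Finset.univ (0 : Fin d)]
  simp only [Finset.mem_univ, if_true]
  ring

lemma disp_add_single [NeZero d] (v : Fin d → ℝ) (n : ℕ) (y : Fin d → ℤ) (t : ℤ) :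
    disp v n (y + Pi.single (0 : Fin d) t) =
      fun k => disp v n y k + (Pi.single (0 : Fin d) (t : ℝ) : Fin d → ℝ) k := by
  funext k
  unfold disp
  by_cases hk : k = 0
  · subst hk
    rw [Pi.single_eq_same, Pi.add_apply, Pi.single_eq_same]
    push_cast
    ring
  · rw [Pi.single_eq_of_ne hk, Pi.add_apply, Pi.single_eq_of_ne hk]
    push_cast
    ring

lemma coord_le {a : Fin d → ℝ} {R : ℝ} (hR : 0 ≤ R) (h : K1H53.KD.sq a ≤ R ^ 2) (k : Fin d) :
    |a k| ≤ R := by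
  apply abs_le_of_sq_le_sq _ hR
  refine le_trans ?_ h
  exact Finset.single_le_sum (f := fun k => a k ^ 2) (fun _ _ => sq_nonneg _) (Finset.mem_univ k)

/-- displacements of the window -/
lemma win_one [NeZero d] {v : Fin d → ℝ} {s q : ℕ} {R R' : ℝ} (hR : 0 ≤ R) (hq : (q : ℝ) ≤ R + 1)
    (h1 : 3 * R + 2 ≤ R') (h2 : ((d : ℝ) + 2) * R + 2 ≤ s * (1 - ∑ k, |v k|)) {t : ℤ}
    (ht : |t| = 2 * q) {z : Fin d → ℤ} (hz : reach s z)
    (hzs : K1H53.KD.sq (disp v s z) ≤ R ^ 2) :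
    reach s (z + Pi.single (0 : Fin d) t) ∧
      K1H53.KD.sq (disp v s (z + Pi.single (0 : Fin d) t)) ≤ R' ^ 2 := by
  have htR : |(t : ℝ)| = 2 * q := by exact_mod_cast ht
  have hq0 : (0 : ℝ) ≤ q := Nat.cast_nonneg q
  refine ⟨⟨?_, ?_⟩, ?_⟩
  · have e1 : ∀ k, |(z k : ℝ)| ≤ s * |v k| + R := by
      intro k
      have h3 := coord_le hR hzs k
      unfold disp at h3
      have h4 : (z k : ℝ) = (z k - s * v k) + s * v k := by ring
      rw [h4]
      refine (abs_add_le _ _).trans ?_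
      rw [abs_mul, Nat.abs_cast]
      linarith
    have e2 : ∑ k, |(z k : ℝ)| ≤ s * (∑ k, |v k|) + d * R := by
      refine (Finset.sum_le_sum fun k _ => e1 k).trans ?_
      rw [Finset.sum_add_distrib, ← Finset.mul_sum, Finset.sum_const, Finset.card_univ,
        Fintype.card_fin, nsmul_eq_mul]
    have e3 : ∀ k, |(z + Pi.single (0 : Fin d) t : Fin d → ℤ) k| ≤
        |z k| + if k = 0 then |t| else 0 := by
      intro k
      by_cases hk : k = 0
      · subst hk
        rw [Pi.add_apply, Pi.single_eq_same, if_pos rfl]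
        exact abs_add_le _ _
      · rw [Pi.add_apply, Pi.single_eq_of_ne hk, if_neg hk]
        simp
    have e4 : ∑ k, |(z + Pi.single (0 : Fin d) t : Fin d → ℤ) k| ≤ ∑ k, |z k| + |t| := by
      refine (Finset.sum_le_sum fun k _ => e3 k).trans ?_
      rw [Finset.sum_add_distrib, Finset.sum_ite_eq' Finset.univ (0 : Fin d)]
      simp
    have e5 : ((∑ k, |z k| + |t| : ℤ) : ℝ) ≤ ((s : ℤ) : ℝ) := by
      push_cast
      rw [htR]
      nlinarith
    exact e4.trans (by exact_mod_cast e5)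
  · have e1 : ∑ k, (z + Pi.single (0 : Fin d) t : Fin d → ℤ) k = ∑ k, z k + t := by
      simp only [Pi.add_apply]
      rw [Finset.sum_add_distrib, Finset.sum_pi_single']
      simp
    rw [e1]
    have h3 := hz.2
    have h4 : t % 2 = 0 := by
      rcases abs_choice t with h | h <;> omega
    omega
  · rw [disp_add_single, sq_add_single]
    have h3 := coord_le hR hzs 0
    have h4 : 2 * (t : ℝ) * disp v s z 0 ≤ 2 * (2 * q) * R := by
      have h5 : (t : ℝ) * disp v s z 0 ≤ |(t : ℝ)| * |disp v s z 0| := by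
        rw [← abs_mul]; exact le_abs_self _
      rw [htR] at h5
      have h6 : 2 * (q : ℝ) * |disp v s z 0| ≤ 2 * q * R :=
        mul_le_mul_of_nonneg_left h3 (by positivity)
      linarith
    have h5 : (t : ℝ) ^ 2 = (2 * q) ^ 2 := by rw [← sq_abs, htR]
    have h6 : R + 2 * q ≤ R' := by linarith
    have h7 : (R + 2 * q) ^ 2 ≤ R' ^ 2 := pow_le_pow_left₀ (by positivity) h6 2
    nlinarith

lemma exp_mono_pow {n : ℕ} (hn : 1 ≤ n) {x y : ℝ} (hxy : x ≤ y) :
    Real.exp (-(n : ℝ) ^ y) ≤ Real.exp (-(n : ℝ) ^ x) := by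
  apply Real.exp_le_exp.2
  have := Real.rpow_le_rpow_of_exponent_le (show (1 : ℝ) ≤ n by exact_mod_cast hn) hxy
  linarith

lemma se_ex {F : ℕ → ℝ → ℝ} {s C : ℝ} (hs : 0 < s) (hB : ∀ n m, F n m ≤ 1)
    (h : ∀ᶠ n : ℕ in atTop, ∃ m, F n m ≤ C * Real.exp (-(n : ℝ) ^ s)) :
    ∃ C' : ℝ, 0 ≤ C' ∧ ∀ n : ℕ, 1 ≤ n → ∃ m, F n m ≤ C' * Real.exp (-(n : ℝ) ^ s) := by
  set μ : ℕ → ℝ := fun n => if hn : ∃ m, F n m ≤ C * Real.exp (-(n : ℝ) ^ s) then hn.choose else 0
    with hμ
  obtain ⟨C', h0, hC'⟩ := se_of_ev (f := fun n => F n (μ n)) hs (fun n => hB n _) (by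
    filter_upwards [h] with n hn
    simp only [hμ]
    rw [dif_pos hn]
    exact hn.choose_spec)
  exact ⟨C', h0, fun n hn => ⟨_, hC' n hn⟩⟩

theorem t_low [NeZero d] (he : IsEnv P ω) (_hexp : HasExp P ω) (β : ℝ) (hZ : ZApi d)
    (h2 : S_two P ω) : S_low P ω β := by
  intro h v a κ c' hv ha ha1 hκ hκa hconf hc' hPP
  obtain ⟨-, s₀, C₀, hs₀, hC₀⟩ := hconf
  obtain ⟨f, K, s', C', hK, hs', hC', hpp⟩ := hPP 1 one_pos
  have h2a : 0 < 2 * a - 1 := by linarith
  have ha0 : 0 < a := by linarith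
  have hvm : 0 < 1 - ∑ k, |v k| := by linarith
  have e1 : κ / a < min 1 (c' / (2 * a - 1)) := by
    apply lt_min
    · rw [div_lt_one ha0]; exact hκa
    · rw [div_lt_div_iff₀ ha0 h2a]
      rw [div_lt_iff₀ ha0] at hc'
      linarith
  obtain ⟨σ, hσ1, hσ2⟩ := exists_between e1
  have hσ0 : 0 < σ := lt_trans (by positivity) hσ1
  have hσ3 : σ < 1 := lt_of_lt_of_le hσ2 (min_le_left _ _)
  have hσ4 : σ * (2 * a - 1) < c' := by
    have := lt_of_lt_of_le hσ2 (min_le_right _ _)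
    rwa [lt_div_iff₀ h2a] at this
  have hσ5 : κ < σ * a := by rwa [div_lt_iff₀ ha0] at hσ1
  have hc'0 : 0 < c' := lt_trans (by positivity) hσ4
  set S : ℕ → ℕ := fun n => ⌊(n : ℝ) ^ σ⌋₊ with hS
  have hpow : Tendsto (fun n : ℕ => (n : ℝ) ^ σ) atTop atTop :=
    (tendsto_rpow_atTop hσ0).comp tendsto_natCast_atTop_atTop
  have TS : Tendsto S atTop atTop := tendsto_nat_floor_atTop.comp hpow
  have hSle : ∀ n : ℕ, (S n : ℝ) ≤ (n : ℝ) ^ σ := fun n =>
    Nat.floor_le (Real.rpow_nonneg (Nat.cast_nonneg n) _)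
  have hSge : ∀ᶠ n : ℕ in atTop, (n : ℝ) ^ σ / 2 ≤ S n := by
    filter_upwards [hpow.eventually_ge_atTop 2] with n hn
    have := Nat.lt_floor_add_one ((n : ℝ) ^ σ)
    simp only [hS]
    linarith
  have hS2 : ∀ᶠ n : ℕ in atTop, 1 * (n : ℝ) ^ σ + 0 ≤ (n : ℝ) ^ (1 : ℝ) :=
    pow_lt_ev hσ3 one_pos
  set s₃ := min (σ / 2 * s') s₀ with hs₃
  have hs₃0 : 0 < s₃ := by rw [hs₃]; positivity
  have A1 : ∀ᶠ n : ℕ in atTop, Real.exp (-(S n : ℝ) ^ s') ≤ Real.exp (-(n : ℝ) ^ s₃) := by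
    have h2 := scale_se (s := s') (τ := σ) hs' (τ' := σ / 2) (by linarith)
      (u := fun n => (S n : ℝ)) hSge
    filter_upwards [h2, eventually_ge_atTop 1] with n h4 h5
    exact h4.trans (exp_mono_pow h5 (min_le_left _ _))
  have A3 : ∀ᶠ n : ℕ in atTop, Real.exp (-(n : ℝ) ^ s₀) ≤ Real.exp (-(n : ℝ) ^ s₃) := by
    filter_upwards [eventually_ge_atTop 1] with n h5
    exact exp_mono_pow h5 (min_le_right _ _)
  have B1 : ∀ᶠ n : ℕ in atTop, (3 * (2 : ℝ) ^ a) * (n : ℝ) ^ κ + 2 * (2 : ℝ) ^ a ≤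
      (n : ℝ) ^ (σ * a) := pow_lt_ev hσ5 (by positivity)
  have B2 : ∀ᶠ n : ℕ in atTop, (((d : ℝ) + 2) / (1 - ∑ k, |v k|)) * (S n : ℝ) ^ a + 0 ≤
      (S n : ℝ) ^ (1 : ℝ) := TS.eventually (pow_lt_ev ha1 one_pos)
  have B3 : ∀ᶠ n : ℕ in atTop, (2 * K) * (n : ℝ) ^ (σ * (2 * a - 1)) + 2 ≤ (n : ℝ) ^ c' :=
    pow_lt_ev hσ4 hc'0
  set CC := 2 * C' + 6 * |C₀| with hCC
  obtain ⟨C'', h0, hfin⟩ := se_ex (F := fun n m => P.real {x | (n : ℝ) ^ c' <
      |Real.log (Zd β h (fld ω x) n) - m|}) (C := CC) hs₃0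
    (fun n m => measureReal_le_one) (by
      filter_upwards [A1, A3, B1, B2, B3, hSge, hS2, TS.eventually_ge_atTop 1,
        eventually_ge_atTop 1] with n a1 a3 b1 b2 b3 hsge hs2 hS1 hn1
      have hnR : (0 : ℝ) < n := by exact_mod_cast hn1
      set s := S n with hs
      have hsR : (0 : ℝ) < s := by exact_mod_cast hS1
      have hsn : s ≤ n := by
        have h1 := hSle n
        rw [Real.rpow_one] at hs2
        have : (s : ℝ) ≤ n := by linarith
        exact_mod_cast this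
      obtain ⟨k, hk'⟩ : ∃ k, n = s + k := ⟨n - s, by omega⟩
      set R := (n : ℝ) ^ κ with hR
      have hR0 : 0 ≤ R := by positivity
      have hra : 3 * R + 2 ≤ (s : ℝ) ^ a := by
        have h1 : ((n : ℝ) ^ σ / 2) ^ a ≤ (s : ℝ) ^ a :=
          Real.rpow_le_rpow (by positivity) hsge ha0.le
        rw [Real.div_rpow (by positivity) (by norm_num), ← Real.rpow_mul hnR.le] at h1
        have h2 : 3 * R + 2 ≤ (n : ℝ) ^ (σ * a) / 2 ^ a := by
          rw [le_div_iff₀ (by positivity)]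
          linarith
        linarith
      rw [add_zero, Real.rpow_one, div_mul_eq_mul_div, div_le_iff₀ hvm] at b2
      have hgeo : ((d : ℝ) + 2) * R + 2 ≤ s * (1 - ∑ k, |v k|) := by
        refine le_trans ?_ b2
        have hd : (0 : ℝ) ≤ d := Nat.cast_nonneg d
        nlinarith
      set q := ⌊R⌋₊ + 1 with hq
      have hqR : (q : ℝ) ≤ R + 1 := by
        rw [hq]; push_cast
        linarith [Nat.floor_le hR0]
      have hqR2 : R < q := by
        rw [hq]; push_cast
        exact Nat.lt_floor_add_one R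
      have hwin : ∀ z : Fin d → ℤ, reach s z → K1H53.KD.sq (disp v s z) ≤ R ^ 2 →
          K1H53.KD.sq (disp v s z) ≤ (1 * (s : ℝ) ^ a) ^ 2 ∧
          (reach s (z - Pi.single (0 : Fin d) (2 * (q : ℤ))) ∧
            K1H53.KD.sq (disp v s (z - Pi.single (0 : Fin d) (2 * (q : ℤ)))) ≤
              (1 * (s : ℝ) ^ a) ^ 2) ∧
          (reach s (z + Pi.single (0 : Fin d) (2 * (q : ℤ))) ∧
            K1H53.KD.sq (disp v s (z + Pi.single (0 : Fin d) (2 * (q : ℤ)))) ≤
              (1 * (s : ℝ) ^ a) ^ 2) := by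
        intro z z1 z2
        rw [one_mul]
        refine ⟨z2.trans (pow_le_pow_left₀ hR0 (by linarith) 2), ?_, ?_⟩
        · rw [sub_eq_add_neg, ← Pi.single_neg]
          exact win_one hR0 hqR hra hgeo (by rw [abs_neg, abs_of_nonneg (by positivity)]) z1 z2
        · exact win_one hR0 hqR hra hgeo (by rw [abs_of_nonneg (by positivity)]) z1 z2
      have hD : ∀ (i : ℕ) (y : Fin d → ℤ), K1H53.KD.sq (disp v i y) ≤ R ^ 2 →
          ¬ K1H53.KD.sq (disp v i (Pi.single (0 : Fin d) (2 * (q : ℤ)) + y)) ≤ R ^ 2 := by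
        intro i y hy hcon
        rw [add_comm, disp_add_single] at hcon
        have h3 := abs_le.1 (coord_le hR0 hy 0)
        have h4 := abs_le.1 (coord_le hR0 hcon 0)
        simp only [Pi.single_eq_same] at h4
        push_cast at h4
        linarith [h3.1, h4.2]
      obtain ⟨m, hm⟩ := low_step he hZ h2 (k := k) (β := β) (h := h) (v := v)
        (B2 := C₀ * Real.exp (-(n : ℝ) ^ s₀)) hR0 hwin hD (hpp s hS1)
        (by rw [← hk']; exact hC₀ n hn1)
      refine ⟨m, ?_⟩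
      have hE0 : 0 < Real.exp (-(n : ℝ) ^ s₃) := Real.exp_pos _
      have t1 : C' * Real.exp (-(s : ℝ) ^ s') ≤ C' * Real.exp (-(n : ℝ) ^ s₃) :=
        mul_le_mul_of_nonneg_left a1 hC'
      have t2 : C₀ * Real.exp (-(n : ℝ) ^ s₀) ≤ |C₀| * Real.exp (-(n : ℝ) ^ s₃) :=
        (mul_le_mul_of_nonneg_right (le_abs_self _) (Real.exp_pos _).le).trans
          (mul_le_mul_of_nonneg_left a3 (abs_nonneg _))
      have t3 : 2 * (C' * Real.exp (-(s : ℝ) ^ s')) + 6 * (C₀ * Real.exp (-(n : ℝ) ^ s₀)) ≤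
          CC * Real.exp (-(n : ℝ) ^ s₃) := by
        rw [hCC]
        linarith
      refine le_trans (le_trans (measureReal_mono ?_ (measure_ne_top _ _)) hm) t3
      intro x hx
      have hx' : (n : ℝ) ^ c' < |Real.log (Zd β h (fld ω x) n) - m| := hx
      rw [hk'] at hx'
      simp only [Set.mem_ofPred_eq]
      refine lt_of_le_of_lt ?_ hx'
      rw [← hk']
      have h5 : (s : ℝ) ^ (2 * a - 1) ≤ (n : ℝ) ^ (σ * (2 * a - 1)) := by
        rw [Real.rpow_mul hnR.le]
        exact Real.rpow_le_rpow hsR.le (hSle n) h2a.le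
      have h6 : K * (s : ℝ) ^ (2 * a - 1) ≤ K * (n : ℝ) ^ (σ * (2 * a - 1)) :=
        mul_le_mul_of_nonneg_left h5 hK.le
      linarith)
  exact ⟨s₃, C'', hs₃0, hfin⟩

end Pool.Agent.K1H52.KD
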