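import Pool.Agent.K1H53.KD.Plan3
import Pool.Agent.K1H53.KZ.SE

/-!
Union bounds for the steering in every dimension.
-/

open MeasureTheory ProbabilityTheory Set Filter TH967.DP
open scoped Topology
open Classical

set_option linter.unusedSectionVars false

namespace Pool.Agent.K1H52.KD

open Pool.Agent.K1H38.DP Pool.Agent.K1H53.KD Pool.Agent.K1H53.KZ

variable {d : ℕ} {Ω : Type*} [MeasurableSpace Ω] {P : Measure Ω} [IsProbabilityMeasure P]
  {ω : ℕ → (Fin d → ℤ) → Ω → ℝ}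

/-- polynomial factors are absorbed, for all `N ≥ 1` -/
lemma absorb {f : ℕ → ℝ} (hf : ∀ N, f N ≤ 1) {p : ℕ} {K s : ℝ} (hs : 0 < s) (hK : 0 ≤ K)
    (h : ∀ N : ℕ, 1 ≤ N → f N ≤ (2 * (N : ℝ) + 1) ^ p * (K * Real.exp (-(N : ℝ) ^ s))) :
    ∃ s' C' : ℝ, 0 < s' ∧ 0 ≤ C' ∧ ∀ N : ℕ, 1 ≤ N → f N ≤ C' * Real.exp (-(N : ℝ) ^ s') := by
  obtain ⟨C', h0, hC'⟩ := se_of_ev (f := f) (s := s / 2) (C := K) (half_pos hs) hf (by
    filter_upwards [poly_se p hs, eventually_ge_atTop 1] with N h1 h2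
    refine (h N h2).trans ?_
    calc (2 * (N : ℝ) + 1) ^ p * (K * Real.exp (-(N : ℝ) ^ s)) =
        K * ((2 * (N : ℝ) + 1) ^ p * Real.exp (-(N : ℝ) ^ s)) := by ring
      _ ≤ K * Real.exp (-(N : ℝ) ^ (s / 2)) := mul_le_mul_of_nonneg_left h1 hK)
  exact ⟨s / 2, C', half_pos hs, h0, hC'⟩

theorem t_union [NeZero d] (he : IsEnv P ω) (hexp : HasExp P ω) (β : ℝ) : S_union P ω β := by
  intro c s C ε hc hs hε G hG
  obtain ⟨s', C', hs', hC', hu⟩ := tail_unif he hexp β hc hs (S := TE P ω β c s C)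
    (fun n hn h hh => hh n hn)
  set cι : ℝ := ((Fintype.card (Option (Option (Fin d × Bool))) : ℕ) : ℝ) with hcι
  have hcι0 : 0 ≤ cι := Nat.cast_nonneg _
  apply absorb (p := 2 * d + 3) (K := cι * C') (s := ε * s') (fun N => measureReal_le_one)
    (by positivity) (by positivity)
  intro N hN
  have hNR : (1 : ℝ) ≤ N := by exact_mod_cast hN
  have hN0 : (0 : ℝ) < N := by linarith
  set F : Finset (ℕ × (Fin d → ℤ) × Option (Option (Fin d × Bool)) × ℕ × ℕ × (Fin d → ℤ)) :=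
    Finset.range (N + 1) ×ˢ (Finset.Icc (fun _ : Fin d => -(N : ℤ)) (fun _ => (N : ℤ)) ×ˢ
      (Finset.univ ×ˢ (Finset.range (N + 1) ×ˢ (Finset.range (N + 1) ×ˢ
        Finset.Icc (fun _ : Fin d => -(N : ℤ)) (fun _ => (N : ℤ)))))) with hF
  set F' := F.filter (fun p => (N : ℝ) ^ ε ≤ p.1 ∧ p.2.2.2.1 ≤ p.1) with hF'
  have hsub : SBad P ω β c ε G N ⊆ ⋃ p ∈ F', {a | (p.1 : ℝ) ^ c <
      |Real.log (Zd β (G p.1 p.2.1 p.2.2.1) (shift p.2.2.2.2.1 p.2.2.2.2.2 (fld ω a)) p.2.2.2.1) -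
        Lm P ω β (G p.1 p.2.1 p.2.2.1) p.2.2.2.1|} := by
    rintro a ⟨M, hM1, hM2, z, hz, j, n, hn, T, hT, y, hy, hlt⟩
    simp only [Set.mem_iUnion]
    refine ⟨(M, z, j, n, T, y), ?_, hlt⟩
    rw [hF', Finset.mem_filter, hF]
    simp only [Finset.mem_product, Finset.mem_univ, Finset.mem_range, true_and]
    exact ⟨⟨by omega, mem_box.2 hz, by omega, by omega, mem_box.2 hy⟩, hM1, hn⟩
  have hcard : (F.card : ℝ) = (N + 1) * ((2 * (N : ℝ) + 1) ^ d * (cι * ((N + 1) *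
      ((N + 1) * (2 * (N : ℝ) + 1) ^ d)))) := by
    rw [hF, Finset.card_product, Finset.card_product, Finset.card_product, Finset.card_product,
      Finset.card_product, card_box, Finset.card_univ, Finset.card_range, hcι]
    push_cast
    ring
  set B := C' * Real.exp (-(N : ℝ) ^ (ε * s')) with hB
  have hB0 : 0 ≤ B := by positivity
  calc P.real (SBad P ω β c ε G N) ≤ P.real (⋃ p ∈ F', {a | (p.1 : ℝ) ^ c <
      |Real.log (Zd β (G p.1 p.2.1 p.2.2.1) (shift p.2.2.2.2.1 p.2.2.2.2.2 (fld ω a)) p.2.2.2.1) -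
        Lm P ω β (G p.1 p.2.1 p.2.2.1) p.2.2.2.1|}) :=
        measureReal_mono hsub (measure_ne_top _ _)
    _ ≤ ∑ p ∈ F', P.real {a | (p.1 : ℝ) ^ c <
      |Real.log (Zd β (G p.1 p.2.1 p.2.2.1) (shift p.2.2.2.2.1 p.2.2.2.2.2 (fld ω a)) p.2.2.2.1) -
        Lm P ω β (G p.1 p.2.1 p.2.2.1) p.2.2.2.1|} := measureReal_biUnion_finset_le _ _
    _ ≤ ∑ p ∈ F', B := by
        apply Finset.sum_le_sum
        intro p hp
        rw [hF', Finset.mem_filter] at hp
        obtain ⟨-, hp1, hp2⟩ := hp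
        rw [prob_shift he]
        have hM1 : (1 : ℝ) ≤ p.1 := le_trans (Real.one_le_rpow hNR hε.le) hp1
        have hM : 1 ≤ p.1 := by exact_mod_cast hM1
        refine (hu p.1 hM _ hp2 _ (hG _ _ _)).trans ?_
        rw [hB]
        apply mul_le_mul_of_nonneg_left _ hC'
        apply Real.exp_le_exp.2
        rw [Real.rpow_mul hN0.le]
        have := Real.rpow_le_rpow (by positivity) hp1 hs'.le
        linarith
    _ = F'.card * B := by rw [Finset.sum_const, nsmul_eq_mul]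
    _ ≤ F.card * B := by
        apply mul_le_mul_of_nonneg_right _ hB0
        exact_mod_cast Finset.card_filter_le _ _
    _ ≤ _ := by
        rw [hcard, hB]
        have h0 : (0 : ℝ) ≤ (2 * (N : ℝ) + 1) ^ d := by positivity
        have h1 : ((N : ℝ) + 1) ^ 3 ≤ (2 * (N : ℝ) + 1) ^ 3 :=
          pow_le_pow_left₀ (by linarith) (by linarith) 3
        have h2 : 0 ≤ ((2 * (N : ℝ) + 1) ^ d) ^ 2 * (cι * (C' * Real.exp (-(N : ℝ) ^ (ε * s')))) :=
          by positivity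
        calc ((N : ℝ) + 1) * ((2 * (N : ℝ) + 1) ^ d * (cι * ((N + 1) *
              ((N + 1) * (2 * (N : ℝ) + 1) ^ d)))) * (C' * Real.exp (-(N : ℝ) ^ (ε * s'))) =
            ((N : ℝ) + 1) ^ 3 * (((2 * (N : ℝ) + 1) ^ d) ^ 2 *
              (cι * (C' * Real.exp (-(N : ℝ) ^ (ε * s'))))) := by ring
          _ ≤ (2 * (N : ℝ) + 1) ^ 3 * (((2 * (N : ℝ) + 1) ^ d) ^ 2 *
              (cι * (C' * Real.exp (-(N : ℝ) ^ (ε * s'))))) := mul_le_mul_of_nonneg_right h1 h2
          _ = _ := by rw [pow_add, pow_mul']; ring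

theorem t_max [NeZero d] (he : IsEnv P ω) (hexp : HasExp P ω) : S_max P ω := by
  intro ε hε
  set K := ∫ x, (Real.exp (1 * ω 1 0 x) + Real.exp (-1 * ω 1 0 x)) ∂P with hK
  have hint : Integrable (fun x => Real.exp (1 * ω 1 0 x) + Real.exp (-1 * ω 1 0 x)) P :=
    (hexp 1).add (hexp (-1))
  have hK0 : 0 ≤ K := integral_nonneg fun x => by positivity
  have one : ∀ t : ℝ, P.real {x | t < |ω 1 0 x|} ≤ K * Real.exp (-t) := by
    intro t
    have hM := mul_meas_ge_le_integral_of_nonneg (μ := P)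
      (f := fun x => Real.exp (1 * ω 1 0 x) + Real.exp (-1 * ω 1 0 x))
      (Eventually.of_forall fun x => by positivity) hint (Real.exp t)
    have h2 : P.real {x | t < |ω 1 0 x|} ≤
        P.real {x | Real.exp t ≤ Real.exp (1 * ω 1 0 x) + Real.exp (-1 * ω 1 0 x)} := by
      apply measureReal_mono _ (measure_ne_top _ _)
      intro x hx
      simp only [Set.mem_ofPred_eq] at hx ⊢
      have e1 := Real.exp_pos (1 * ω 1 0 x)
      have e2 := Real.exp_pos (-1 * ω 1 0 x)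
      rcases abs_choice (ω 1 0 x) with h | h
      · rw [h] at hx
        have : Real.exp t ≤ Real.exp (1 * ω 1 0 x) := Real.exp_le_exp.2 (by linarith)
        linarith
      · rw [h] at hx
        have : Real.exp t ≤ Real.exp (-1 * ω 1 0 x) := Real.exp_le_exp.2 (by linarith)
        linarith
    have h3 : Real.exp t * P.real {x | t < |ω 1 0 x|} ≤ K :=
      (mul_le_mul_of_nonneg_left h2 (Real.exp_pos _).le).trans hM
    rw [Real.exp_neg, ← div_eq_mul_inv, le_div_iff₀ (Real.exp_pos _)]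
    linarith
  apply absorb (p := d + 1) (K := K) (s := ε) (fun N => measureReal_le_one) hε hK0
  intro N hN
  set F : Finset (ℕ × (Fin d → ℤ)) := Finset.range (N + 1) ×ˢ
    Finset.Icc (fun _ : Fin d => -(N : ℤ)) (fun _ => (N : ℤ)) with hF
  have hsub : {x | ∃ i ≤ N, ∃ y : Fin d → ℤ, (∀ k, |y k| ≤ (N : ℤ)) ∧
      (N : ℝ) ^ ε < |ω i y x|} ⊆ ⋃ p ∈ F, {x | (N : ℝ) ^ ε < |ω p.1 p.2 x|} := by
    rintro a ⟨i, hi, y, hy, hlt⟩
    simp only [Set.mem_iUnion]
    refine ⟨(i, y), ?_, hlt⟩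
    rw [hF]
    simp only [Finset.mem_product, Finset.mem_range]
    exact ⟨by omega, mem_box.2 hy⟩
  have hcard : (F.card : ℝ) = (N + 1) * (2 * (N : ℝ) + 1) ^ d := by
    rw [hF, Finset.card_product, card_box, Finset.card_range]
    push_cast
    ring
  calc P.real {x | ∃ i ≤ N, ∃ y : Fin d → ℤ, (∀ k, |y k| ≤ (N : ℤ)) ∧ (N : ℝ) ^ ε < |ω i y x|}
      ≤ P.real (⋃ p ∈ F, {x | (N : ℝ) ^ ε < |ω p.1 p.2 x|}) :=
        measureReal_mono hsub (measure_ne_top _ _)
    _ ≤ ∑ p ∈ F, P.real {x | (N : ℝ) ^ ε < |ω p.1 p.2 x|} := measureReal_biUnion_finset_le _ _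
    _ ≤ ∑ p ∈ F, K * Real.exp (-(N : ℝ) ^ ε) := by
        apply Finset.sum_le_sum
        intro p _
        have h1 : P {x | (N : ℝ) ^ ε < |ω p.1 p.2 x|} = P {x | (N : ℝ) ^ ε < |ω 1 0 x|} :=
          (he.ident p.1 p.2).measure_mem_eq (s := {t : ℝ | (N : ℝ) ^ ε < |t|})
            (measurableSet_lt measurable_const measurable_id.abs)
        rw [measureReal_def, h1, ← measureReal_def]
        exact one _
    _ = F.card * (K * Real.exp (-(N : ℝ) ^ ε)) := by rw [Finset.sum_const, nsmul_eq_mul]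
    _ ≤ _ := by
        apply mul_le_mul_of_nonneg_right _ (by positivity)
        rw [hcard, pow_succ, mul_comm]
        apply mul_le_mul_of_nonneg_left _ (by positivity)
        have : (0 : ℝ) ≤ N := Nat.cast_nonneg N
        linarith

end Pool.Agent.K1H52.KD
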